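import Mathlib
import Pool.Agent.D0H11.GO.Stm

set_option autoImplicit false

/-! # Module CNTM of project GO (helper11) -/

namespace Pool.Agent.D0H12.GO

open Finset
open Pool.Agent.D0H11.GO (S_CNTM QM)

/-- the parametrisation -/
def par (M : ℕ) (p : ℕ × ℕ × ℕ × ℕ) : Fin 4 → ℕ :=
  ![7 * M + p.1, 7 * M + p.2.1, 4 * M + p.2.2.1, 4 * M + 2 * p.2.2.2 + (p.1 + p.2.1 + p.2.2.1 + 1) % 2]

theorem sq_mod (n : ℕ) : n ^ 2 % 2 = n % 2 := by
  rw [Nat.pow_mod]
  rcases Nat.mod_two_eq_zero_or_one n with h | h <;> rw [h]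

theorem par_mem (M : ℕ) (p : ℕ × ℕ × ℕ × ℕ)
    (hp : p ∈ range M ×ˢ range M ×ˢ range M ×ˢ range (M / 2)) : par M p ∈ QM M := by
  classical
  obtain ⟨a, b, c, d⟩ := p
  simp only [mem_product, mem_range] at hp
  obtain ⟨ha, hb, hc, hd⟩ := hp
  have e0 : par M (a, b, c, d) 0 = 7 * M + a := rfl
  have e1 : par M (a, b, c, d) 1 = 7 * M + b := rfl
  have e2 : par M (a, b, c, d) 2 = 4 * M + c := rfl
  have e3 : par M (a, b, c, d) 3 = 4 * M + 2 * d + (a + b + c + 1) % 2 := rfl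
  have h2 : (a + b + c + 1) % 2 < 2 := Nat.mod_lt _ (by norm_num)
  unfold QM
  rw [mem_filter]
  refine ⟨?_, ?_⟩
  · unfold Pool.Agent.D0H11.GM.QQ
    rw [mem_filter, Fintype.mem_piFinset]
    refine ⟨?_, ?_⟩
    · intro i
      rw [mem_Ico]
      fin_cases i
      · show 4 * M ≤ par M (a, b, c, d) 0 ∧ par M (a, b, c, d) 0 < 2 * (4 * M)
        rw [e0]; omega
      · show 4 * M ≤ par M (a, b, c, d) 1 ∧ par M (a, b, c, d) 1 < 2 * (4 * M)
        rw [e1]; omega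
      · show 4 * M ≤ par M (a, b, c, d) 2 ∧ par M (a, b, c, d) 2 < 2 * (4 * M)
        rw [e2]; omega
      · show 4 * M ≤ par M (a, b, c, d) 3 ∧ par M (a, b, c, d) 3 < 2 * (4 * M)
        rw [e3]; omega
    · unfold Pool.Agent.D0H11.GM.nn
      rw [e0, e1, e2, e3, Nat.odd_iff]
      have k0 := sq_mod (7 * M + a)
      have k1 := sq_mod (7 * M + b)
      have k2 := sq_mod (4 * M + c)
      have k3 := sq_mod (4 * M + 2 * d + (a + b + c + 1) % 2)
      omega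
  · rw [e0, e1, e2, e3]
    omega

theorem par_inj (M : ℕ) (p p' : ℕ × ℕ × ℕ × ℕ) (h : par M p = par M p') : p = p' := by
  obtain ⟨a, b, c, d⟩ := p
  obtain ⟨a', b', c', d'⟩ := p'
  have h0 : 7 * M + a = 7 * M + a' := congrFun h 0
  have h1 : 7 * M + b = 7 * M + b' := congrFun h 1
  have h2 : 4 * M + c = 4 * M + c' := congrFun h 2
  have h3 : 4 * M + 2 * d + (a + b + c + 1) % 2 = 4 * M + 2 * d' + (a' + b' + c' + 1) % 2 := congrFun h 3
  have ha : a = a' := by omega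
  have hb : b = b' := by omega
  have hc : c = c' := by omega
  subst ha hb hc
  have hd : d = d' := by omega
  rw [hd]

/-- **CNTM.** -/
theorem t_CNTM : S_CNTM := by
  classical
  refine ⟨1 / 4, by norm_num, fun M hM => ?_⟩
  have h1 : (range M ×ˢ range M ×ˢ range M ×ˢ range (M / 2)).card ≤ (QM M).card :=
    Finset.card_le_card_of_injOn (par M) (fun p hp => par_mem M p hp)
      (fun p _ p' _ h => par_inj M p p' h)
  rw [card_product, card_product, card_product, card_range, card_range] at h1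
  have h2 : (M : ℝ) / 4 ≤ ((M / 2 : ℕ) : ℝ) := by
    have h3 : M ≤ 4 * (M / 2) := by omega
    have h4 : (M : ℝ) ≤ 4 * ((M / 2 : ℕ) : ℝ) := by exact_mod_cast h3
    linarith
  have h5 : ((M * (M * (M * (M / 2))) : ℕ) : ℝ) ≤ ((QM M).card : ℝ) := by exact_mod_cast h1
  have h6 : ((M * (M * (M * (M / 2))) : ℕ) : ℝ) = (M : ℝ) ^ 3 * ((M / 2 : ℕ) : ℝ) := by
    push_cast; ring
  rw [h6] at h5
  have h7 : (M : ℝ) ^ 3 * ((M : ℝ) / 4) ≤ (M : ℝ) ^ 3 * ((M / 2 : ℕ) : ℝ) :=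
    mul_le_mul_of_nonneg_left h2 (by positivity)
  calc 1 / 4 * (M : ℝ) ^ 4 = (M : ℝ) ^ 3 * ((M : ℝ) / 4) := by ring
    _ ≤ _ := h7.trans h5

end Pool.Agent.D0H12.GO
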